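import Pool.Agent.W533.K.Defs

/-!
Project UK: order statistics of the distances to the pieces.
-/

set_option autoImplicit false

namespace Pool.Agent.W924.UK

open Finset Pool.Agent.W533.K

universe u

theorem orderStat : OrderStat.{u} := by
  classical
  intro X _ _ ι _ c hc s B hs hB
  rcases lt_or_ge (Fintype.card ι) s with hcard | hcard
  · refine ⟨fun _ => B, fun _ => hB, fun x y => ?_, fun x => ?_, fun x θ h1 h2 => ?_⟩
    · rw [sub_self, abs_zero]
      exact dist_nonneg
    · refine lt_of_le_of_lt ?_ hcard
      unfold cntLt
      exact card_le_univ _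
    · exact absurd h2 (not_le.2 h1)
  · set q : ι → X → NNReal := fun j x => ⟨pd c j x, Metric.infDist_nonneg⟩ with hq
    have hP : (powersetCard s (univ : Finset ι)).Nonempty := by
      rw [powersetCard_nonempty, card_univ]
      exact hcard
    set ρ : X → NNReal := fun x => (powersetCard s (univ : Finset ι)).inf' hP
      (fun J => J.sup fun j => q j x) with hρ
    have hex : ∀ x, ∃ J : Finset ι, J.card = s ∧ ρ x = J.sup fun j => q j x := by
      intro x
      obtain ⟨J, hJ, h⟩ := exists_mem_eq_inf' hP (fun J : Finset ι => J.sup fun j => q j x)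
      exact ⟨J, (mem_powersetCard.1 hJ).2, h⟩
    have hle : ∀ x (J : Finset ι), J.card = s → ρ x ≤ J.sup fun j => q j x := by
      intro x J hJ
      exact inf'_le _ (mem_powersetCard.2 ⟨subset_univ _, hJ⟩)
    have hqd : ∀ j x y, q j x ≤ q j y + nndist x y := by
      intro j x y
      rw [← NNReal.coe_le_coe, NNReal.coe_add, coe_nndist]
      exact Metric.infDist_le_infDist_add_dist
    have hpos : ∀ x, 0 < ρ x := by
      intro x
      obtain ⟨J, hJ, h⟩ := hex x
      obtain ⟨j, hj, hjx⟩ : ∃ j ∈ J, j ≠ c x := by
        by_contra hno
        push Not at hno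
        have : J ⊆ {c x} := fun j hj => mem_singleton.2 (hno j hj)
        have := card_le_card this
        rw [card_singleton] at this
        omega
      have h1 : 0 < q j x := by
        rw [← NNReal.coe_pos]
        show 0 < Metric.infDist x {y | c y = j}
        refine ((Set.toFinite _).isClosed.notMem_iff_infDist_pos ?_).1 ?_
        · obtain ⟨y, hy⟩ := hc j
          exact ⟨y, hy⟩
        · intro h2
          exact hjx h2.symm
      rw [h]
      exact lt_of_lt_of_le h1 (le_sup (f := fun j => q j x) hj)
    have hlip : ∀ x y, ρ x ≤ ρ y + nndist x y := by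
      intro x y
      obtain ⟨J, hJ, h⟩ := hex y
      refine (hle x J hJ).trans ?_
      rw [h]
      refine Finset.sup_le fun j hj => (hqd j x y).trans ?_
      gcongr
      exact le_sup (f := fun j => q j y) hj
    refine ⟨fun x => (ρ x : ℝ), fun x => NNReal.coe_pos.2 (hpos x), fun x y => ?_, fun x => ?_,
      fun x θ _ h2 => ?_⟩
    · rw [abs_sub_le_iff]
      constructor
      · have := hlip x y
        rw [← NNReal.coe_le_coe, NNReal.coe_add, coe_nndist] at this
        linarith
      · have := hlip y x
        rw [← NNReal.coe_le_coe, NNReal.coe_add, coe_nndist, dist_comm] at this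
        linarith
    · by_contra hno
      push Not at hno
      unfold cntLt at hno
      obtain ⟨J, hJ1, hJ2⟩ := exists_subset_card_eq hno
      have h1 := hle x J hJ2
      have h2 : (J.sup fun j => q j x) < ρ x := by
        rw [Finset.sup_lt_iff (by exact hpos x)]
        intro j hj
        have := (mem_filter.1 (hJ1 hj)).2
        rw [← NNReal.coe_lt_coe]
        exact this
      exact absurd h1 (not_le.2 h2)
    · obtain ⟨J, hJ, h⟩ := hex x
      unfold cntLe
      rw [← hJ]
      refine card_le_card fun j hj => ?_
      rw [mem_filter]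
      refine ⟨mem_univ _, ?_⟩
      have h3 : q j x ≤ ρ x := by
        rw [h]
        exact le_sup (f := fun j => q j x) hj
      have h4 : (q j x : ℝ) ≤ ρ x := NNReal.coe_le_coe.2 h3
      exact h4.trans h2

end Pool.Agent.W924.UK
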